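import Pool.Agent.K1H22.SR.Stm2

/-! Project SR part 2 (owner helper22), piece LFP (task 22404): Parikh's theorem for systems. -/

set_option autoImplicit false

namespace Pool.Agent.K1H26.SR2

open Pool.Agent.K1H22.SR Pool.Agent.K1H22.SR2

/-- separate the coordinate `a` -/
def psi {M J : Type} [AddCommMonoid M] [DecidableEq J] (a : J) :
    M × (J → ℕ) →+ (M × (J → ℕ)) × ℕ where
  toFun z := ((z.1, fun i => if i = a then 0 else z.2 i), z.2 a)
  map_zero' := by
    ext <;> simp
  map_add' x y := by
    refine Prod.ext (Prod.ext rfl ?_) rfl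
    funext i
    simp only [Prod.snd_add, Prod.fst_add, Pi.add_apply]
    split_ifs <;> simp

theorem da_univ {M J : Type} [AddCommMonoid M] [DecidableEq J] [Fintype J]
    {L : J → Set (M × (J → ℕ))} {j : J} {z : M × (J → ℕ)} (h : DA L Finset.univ j z) :
    z.2 = 0 ∧ Ded L j z.1 := by
  induction h with
  | mk x l hx hA hl hc ih =>
    have e1 := map_list_sum (AddMonoidHom.fst M (J → ℕ)) (l.map Prod.snd)
    have e2 := map_list_sum (AddMonoidHom.snd M (J → ℕ)) (l.map Prod.snd)
    simp only [AddMonoidHom.coe_fst, AddMonoidHom.coe_snd, List.map_map] at e1 e2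
    constructor
    · rw [Prod.snd_add, e2]
      have h0 : (l.map (Prod.snd ∘ Prod.snd)).sum = (0 : J → ℕ) := by
        apply List.sum_eq_zero
        intro f hf
        obtain ⟨p, hp, rfl⟩ := List.mem_map.mp hf
        exact (ih p hp).1
      rw [h0, add_zero]
      funext i
      simp
    · rw [Prod.fst_add, e1]
      have h1 := Ded.mk (L := L) x (l.map (fun p => (p.1, p.2.1))) hx (by
        intro q hq
        obtain ⟨p, hp, rfl⟩ := List.mem_map.mp hq
        exact (ih p hp).2) (by
        intro i
        rw [List.map_map]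
        exact hc i (Finset.mem_univ i))
      rw [List.map_map] at h1
      exact h1

theorem ded_da {M J : Type} [AddCommMonoid M] [DecidableEq J] [Fintype J]
    {L : J → Set (M × (J → ℕ))} {j : J} {v : M} (h : Ded L j v) :
    DA L Finset.univ j (v, 0) := by
  induction h with
  | mk x l hx hl hc ih =>
    have h1 := DA.mk (L := L) (A := Finset.univ) x
      (l.map (fun p => (p.1, ((p.2, 0) : M × (J → ℕ))))) hx (fun _ _ => Finset.mem_univ _) (by
        intro q hq
        obtain ⟨p, hp, rfl⟩ := List.mem_map.mp hq
        exact ih p hp) (by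
        intro i _
        rw [List.map_map]
        exact hc i)
    rw [List.map_map] at h1
    convert h1 using 1
    have e1 := map_list_sum (AddMonoidHom.fst M (J → ℕ))
      (l.map (Prod.snd ∘ fun p => (p.1, ((p.2, 0) : M × (J → ℕ)))))
    have e2 := map_list_sum (AddMonoidHom.snd M (J → ℕ))
      (l.map (Prod.snd ∘ fun p => (p.1, ((p.2, 0) : M × (J → ℕ)))))
    simp only [AddMonoidHom.coe_fst, AddMonoidHom.coe_snd, List.map_map] at e1 e2
    refine Prod.ext ?_ ?_
    · rw [Prod.fst_add, e1]
      rfl
    · rw [Prod.snd_add, e2]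
      have h0 : (l.map (Prod.snd ∘ Prod.snd ∘ fun p => (p.1, ((p.2, 0) : M × (J → ℕ))))).sum =
          (0 : J → ℕ) := by
        apply List.sum_eq_zero
        intro f hf
        obtain ⟨p, hp, rfl⟩ := List.mem_map.mp hf
        rfl
      rw [h0, add_zero]
      funext i
      simp

theorem t_LFP (h1 : S_SUB1) (h2 : S_ONE) (h3 : S_ELIM) : S_LFP := by
  intro M J _ _ _ _ L hL
  classical
  have := Fintype.ofFinite J
  have key : ∀ (A : Finset J) (j : J), IsSemilinearSet {z : M × (J → ℕ) | DA L A j z} := by
    intro A
    induction A using Finset.induction_on with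
    | empty =>
      intro j
      have e : {z : M × (J → ℕ) | DA L ∅ j z} = L j := by
        ext z
        constructor
        · rintro ⟨x, l, hx, hA, hl, hc⟩
          have hl0 : l = [] := by
            apply List.eq_nil_iff_forall_not_mem.mpr
            intro p hp
            exact absurd (hA p hp) (Finset.notMem_empty _)
          subst hl0
          simpa using hx
        · intro hz
          have h4 := DA.mk (L := L) (A := ∅) z [] hz (by simp) (by simp) (by simp)
          simpa using h4
      rw [e]
      exact hL j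
    | insert a A ha ih =>
      intro j
      have hG : ∀ i, IsSemilinearSet ((psi a) '' {z : M × (J → ℕ) | DA L A i z}) :=
        fun i => (ih i).image (psi a)
      have hL' : {w : (M × (J → ℕ)) × ℕ | ∃ z, DA L A a z ∧
          w = ((z.1, fun i => if i = a then 0 else z.2 i), z.2 a)} =
          (psi a) '' {z : M × (J → ℕ) | DA L A a z} := by
        ext w
        constructor
        · rintro ⟨z, hz, rfl⟩
          exact ⟨z, hz, rfl⟩
        · rintro ⟨z, hz, rfl⟩
          exact ⟨z, hz, rfl⟩
      have hD := h2 (M × (J → ℕ)) _ (hL' ▸ hG a)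
      have hS := h1 (M × (J → ℕ)) _ _ hD (hG j)
      convert hS using 1
      ext y
      rw [Set.mem_ofPred_eq, h3 M J L A a ha j y]
      constructor
      · rintro ⟨z, hz, lx, hlx, hlen, rfl⟩
        exact ⟨psi a z, ⟨z, hz, rfl⟩, lx, hlx, hlen, rfl⟩
      · rintro ⟨x, ⟨z, hz, rfl⟩, lx, hlx, hlen, rfl⟩
        exact ⟨z, hz, lx, hlx, hlen, rfl⟩
  intro j
  have e : {v : M | Ded L j v} =
      (AddMonoidHom.fst M (J → ℕ)) '' {z : M × (J → ℕ) | DA L Finset.univ j z} := by
    ext v
    constructor
    · intro hv
      exact ⟨(v, 0), ded_da hv, rfl⟩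
    · rintro ⟨z, hz, rfl⟩
      exact (da_univ hz).2
  rw [e]
  exact (key Finset.univ j).image _

end Pool.Agent.K1H26.SR2
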